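import Mathlib

/-!
# Base-4 automata for linear forms which are powers of four
-/

set_option autoImplicit false

namespace Pool.Agent.Q56.P4

/-- `t` is a power of four -/
def IsP4 (t : ℕ) : Prop := ∃ k : ℕ, t = 4 ^ k

def cX (e : ℕ) : ℕ := e / 4096 % 64
def cY (e : ℕ) : ℕ := e / 64 % 64
def cZ (e : ℕ) : ℕ := e % 64
def cC (e : ℕ) : ℕ := e / 262144

/-- the condition coded by `e` -/
def Holds (e a b c : ℕ) : Prop :=
  if cC e = 0 then cX e * a + cY e * b + cZ e * c = 0
  else IsP4 (cX e * a + cY e * b + cZ e * c + (cC e - 1))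

/-- the three lowest digits to base four -/
def dig (a b c : ℕ) : ℕ := 16 * (a % 4) + 4 * (b % 4) + c % 4

def stepE (d e : ℕ) : Option ℕ :=
  bif Nat.beq (cC e) 0 then
    bif Nat.beq (cX e * (d / 16) + cY e * (d / 4 % 4) + cZ e * (d % 4)) 0 then some (e % 262144) else none
  else
    bif Nat.beq (cX e * (d / 16) + cY e * (d / 4 % 4) + cZ e * (d % 4) + (cC e - 1)) 1 then
      some (e % 262144)
    else
      bif Nat.beq ((cX e * (d / 16) + cY e * (d / 4 % 4) + cZ e * (d % 4) + (cC e - 1)) % 4) 0 then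
        some (e % 262144 + 262144 *
          ((cX e * (d / 16) + cY e * (d / 4 % 4) + cZ e * (d % 4) + (cC e - 1)) / 4 + 1))
      else none

theorem split4 (X Y Z a b c : ℕ) : X * a + Y * b + Z * c =
    (X * (a % 4) + Y * (b % 4) + Z * (c % 4)) + 4 * (X * (a / 4) + Y * (b / 4) + Z * (c / 4)) := by
  conv_lhs => rw [← Nat.mod_add_div a 4, ← Nat.mod_add_div b 4, ← Nat.mod_add_div c 4]
  ring

theorem p4_split {u T : ℕ} (h : IsP4 (u + 4 * T)) : (u = 1 ∧ T = 0) ∨ (u ≠ 1 ∧ u % 4 = 0 ∧ IsP4 (T + u / 4)) := by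
  obtain ⟨k, hk⟩ := h
  rcases Nat.eq_zero_or_pos k with h0 | h0
  · subst h0
    left
    simp only [pow_zero] at hk
    omega
  · right
    obtain ⟨j, rfl⟩ : ∃ j, k = j + 1 := ⟨k - 1, by omega⟩
    rw [pow_succ] at hk
    refine ⟨by omega, by omega, j, by omega⟩

theorem step_sound {e a b c : ℕ} (h : Holds e a b c) :
    ∃ e', stepE (dig a b c) e = some e' ∧ Holds e' (a / 4) (b / 4) (c / 4) := by
  have d1 : dig a b c / 16 = a % 4 := by unfold dig; omega
  have d2 : dig a b c / 4 % 4 = b % 4 := by unfold dig; omega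
  have d3 : dig a b c % 4 = c % 4 := by unfold dig; omega
  have hs := split4 (cX e) (cY e) (cZ e) a b c
  obtain ⟨X, hX⟩ : ∃ X, X = cX e := ⟨_, rfl⟩
  obtain ⟨Y, hY⟩ : ∃ Y, Y = cY e := ⟨_, rfl⟩
  obtain ⟨Z, hZ⟩ : ∃ Z, Z = cZ e := ⟨_, rfl⟩
  have hr : ∀ m, cX (e % 262144 + 262144 * m) = cX e ∧ cY (e % 262144 + 262144 * m) = cY e ∧
      cZ (e % 262144 + 262144 * m) = cZ e ∧ cC (e % 262144 + 262144 * m) = m := by
    intro m
    unfold cX cY cZ cC
    refine ⟨by omega, by omega, by omega, by omega⟩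
  have hr0 : cX (e % 262144) = cX e ∧ cY (e % 262144) = cY e ∧
      cZ (e % 262144) = cZ e ∧ cC (e % 262144) = 0 := by
    unfold cX cY cZ cC
    refine ⟨by omega, by omega, by omega, by omega⟩
  obtain ⟨t, ht⟩ : ∃ t, t = cX e * (a % 4) + cY e * (b % 4) + cZ e * (c % 4) := ⟨_, rfl⟩
  obtain ⟨T, hT⟩ : ∃ T, T = cX e * (a / 4) + cY e * (b / 4) + cZ e * (c / 4) := ⟨_, rfl⟩
  rw [← ht, ← hT] at hs
  unfold Holds at h
  unfold stepE
  rw [d1, d2, d3, ← ht]
  by_cases hC : cC e = 0
  · rw [if_pos hC, hs] at h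
    have h0 : t = 0 := by omega
    have hT0 : T = 0 := by omega
    refine ⟨e % 262144, ?_, ?_⟩
    · simp [hC, h0]
    · unfold Holds
      obtain ⟨r1, r2, r3, r4⟩ := hr0
      rw [if_pos r4, r1, r2, r3, ← hT, hT0]
  · rw [if_neg hC, hs] at h
    have e1 : t + 4 * T + (cC e - 1) = (t + (cC e - 1)) + 4 * T := by ring
    rw [e1] at h
    rcases p4_split h with ⟨h1, h2⟩ | ⟨h1, h2, h3⟩
    · refine ⟨e % 262144, ?_, ?_⟩
      · have b1 : Nat.beq (cC e) 0 = false := by
          rw [Bool.eq_false_iff]; intro hh; exact hC (Nat.eq_of_beq_eq_true hh)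
        rw [b1, h1]
        rfl
      · unfold Holds
        obtain ⟨r1, r2, r3, r4⟩ := hr0
        rw [if_pos r4, r1, r2, r3, ← hT, h2]
    · refine ⟨e % 262144 + 262144 * ((t + (cC e - 1)) / 4 + 1), ?_, ?_⟩
      · have b1 : Nat.beq (cC e) 0 = false := by
          rw [Bool.eq_false_iff]; intro hh; exact hC (Nat.eq_of_beq_eq_true hh)
        have b2 : Nat.beq (t + (cC e - 1)) 1 = false := by
          rw [Bool.eq_false_iff]; intro hh; exact h1 (Nat.eq_of_beq_eq_true hh)
        have b3 : Nat.beq ((t + (cC e - 1)) % 4) 0 = true := by rw [h2]; rfl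
        rw [b1, b2, b3]
        rfl
      · unfold Holds
        obtain ⟨r1, r2, r3, r4⟩ := hr ((t + (cC e - 1)) / 4 + 1)
        rw [if_neg (by rw [r4]; omega), r1, r2, r3, r4, ← hT]
        simpa using h3

/-- decoding of a list of codes -/
def dec : ℕ → ℕ → List ℕ
  | 0, _ => []
  | f + 1, s => bif Nat.beq s 0 then [] else (s % 268435456) :: dec f (s / 268435456)

def eqL : List ℕ → List ℕ → Bool
  | [], [] => true
  | a :: l, b :: m => Nat.beq a b && eqL l m
  | _, _ => false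

theorem eqL_eq : ∀ l m : List ℕ, eqL l m = true → l = m
  | [], [], _ => rfl
  | [], _ :: _, h => by simp [eqL] at h
  | _ :: _, [], h => by simp [eqL] at h
  | a :: l, b :: m, h => by
      simp only [eqL, Bool.and_eq_true] at h
      rw [Nat.eq_of_beq_eq_true h.1, eqL_eq l m h.2]

/-- words of exactly `k` digits accepted by an automaton with transitions `T` from the state `q` -/
def Acc (T : ℕ → List (ℕ × ℕ)) (A : ℕ → Bool) : ℕ → ℕ → ℕ → ℕ → ℕ → Prop
  | 0, q, a, b, c => a = 0 ∧ b = 0 ∧ c = 0 ∧ A q = true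
  | k + 1, q, a, b, c => ∃ q', (dig a b c, q') ∈ T q ∧ Acc T A k q' (a / 4) (b / 4) (c / 4)

def look : List (ℕ × ℕ) → ℕ → ℕ
  | [], _ => 0
  | (d', q) :: l, d => bif Nat.beq d' d then q + 1 else look l d

theorem look_mem : ∀ (l : List (ℕ × ℕ)) (d m : ℕ), look l d = m + 1 → (d, m) ∈ l
  | [], _, _, h => by simp [look] at h
  | (d', q) :: l, d, m, h => by
      unfold look at h
      cases hb : Nat.beq d' d with
      | true =>
        rw [hb] at h
        simp only [cond_true, Nat.add_right_cancel_iff] at h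
        rw [h, Nat.eq_of_beq_eq_true hb]
        exact List.mem_cons_self
      | false =>
        rw [hb] at h
        exact List.mem_cons_of_mem _ (look_mem l d m h)

def nx (T : ℕ → List (ℕ × ℕ)) (p d : ℕ) : ℕ :=
  match p with
  | 0 => 0
  | p + 1 => look (T p) d

theorem nx_mem {T : ℕ → List (ℕ × ℕ)} {p d m : ℕ} (h : nx T p d = m + 1) :
    ∃ p', p = p' + 1 ∧ (d, m) ∈ T p' := by
  cases p with
  | zero => simp [nx] at h
  | succ p => exact ⟨p, rfl, look_mem _ _ _ h⟩

def accP (A : ℕ → Bool) (p : ℕ) : Bool :=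
  match p with
  | 0 => false
  | p + 1 => A p

/-- a safe test for powers of four -/
def tP4 (t : ℕ) : Bool := Nat.beq t 1 || Nat.beq t 4 || Nat.beq t 16 || Nat.ble 64 t

theorem tP4_of {t : ℕ} (h : IsP4 t) : tP4 t = true := by
  obtain ⟨k, rfl⟩ := h
  rcases k with _ | _ | _ | k
  · rfl
  · rfl
  · rfl
  · have : 64 ≤ 4 ^ (k + 3) := by
      have := Nat.one_le_pow k 4 (by norm_num)
      rw [pow_add]
      omega
    have hb : Nat.ble 64 (4 ^ (k + 3)) = true := Nat.ble_eq_true_of_le this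
    have e3 : 4 ^ (k + 1 + 1 + 1) = 4 ^ (k + 3) := rfl
    unfold tP4
    rw [e3, hb]
    simp

def accE (e : ℕ) : Bool := Nat.beq (cC e) 0 || tP4 (cC e - 1)

theorem accE_of {e : ℕ} (h : Holds e 0 0 0) : accE e = true := by
  unfold Holds at h
  unfold accE
  by_cases hC : cC e = 0
  · rw [hC]; rfl
  · rw [if_neg hC] at h
    simp only [mul_zero, zero_add] at h
    rw [tP4_of h]
    simp

def mem3 (L : List (ℕ × ℕ × ℕ)) (q : ℕ) (S : List ℕ) (p : ℕ) : Bool :=
  L.any fun t => Nat.beq t.1 q && (Nat.beq t.2.2 p && eqL (dec 500 t.2.1) S)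

def chk (T T' : ℕ → List (ℕ × ℕ)) (A A' : ℕ → Bool) (L : List (ℕ × ℕ × ℕ)) : Bool :=
  L.all fun t =>
    ((T t.1).all fun s =>
      ((dec 500 t.2.1).filterMap (stepE s.1)).isEmpty ||
        mem3 L s.2 ((dec 500 t.2.1).filterMap (stepE s.1)) (nx T' t.2.2 s.1)) &&
    (!(A t.1) || (!((dec 500 t.2.1).any accE) || accP A' t.2.2))

theorem chk_sound {T T' : ℕ → List (ℕ × ℕ)} {A A' : ℕ → Bool} {L : List (ℕ × ℕ × ℕ)}
    (h : chk T T' A A' L = true) : ∀ (k : ℕ), ∀ t ∈ L, ∀ a b c : ℕ, Acc T A k t.1 a b c →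
      (∃ e ∈ dec 500 t.2.1, Holds e a b c) → ∃ p, t.2.2 = p + 1 ∧ Acc T' A' k p a b c := by
  have hall := List.all_eq_true.1 h
  intro k
  induction k with
  | zero =>
    rintro t ht a b c ⟨rfl, rfl, rfl, hA⟩ ⟨e, he, hh⟩
    have h1 := (Bool.and_eq_true_iff.1 (hall t ht)).2
    rw [hA] at h1
    have h2 : (dec 500 t.2.1).any accE = true := List.any_eq_true.2 ⟨e, he, accE_of hh⟩
    rw [h2] at h1
    simp only [Bool.not_true, Bool.false_or] at h1
    cases hp : t.2.2 with
    | zero => rw [hp] at h1; simp [accP] at h1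
    | succ p =>
      rw [hp] at h1
      exact ⟨p, rfl, rfl, rfl, rfl, h1⟩
  | succ k ih =>
    rintro t ht a b c ⟨q', hq', hacc⟩ ⟨e, he, hh⟩
    obtain ⟨e', he', hh'⟩ := step_sound hh
    have h1 := (Bool.and_eq_true_iff.1 (hall t ht)).1
    have h2 := List.all_eq_true.1 h1 _ hq'
    have hmem : e' ∈ (dec 500 t.2.1).filterMap (stepE (dig a b c)) :=
      List.mem_filterMap.2 ⟨e, he, he'⟩
    have hne : ((dec 500 t.2.1).filterMap (stepE (dig a b c))).isEmpty = false := by
      rw [Bool.eq_false_iff]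
      intro hem
      rw [List.isEmpty_iff] at hem
      rw [hem] at hmem
      simp at hmem
    simp only at h2
    rw [hne, Bool.false_or] at h2
    obtain ⟨t', ht', h3⟩ := List.any_eq_true.1 h2
    rw [Bool.and_eq_true, Bool.and_eq_true] at h3
    obtain ⟨h4, h5, h6⟩ := h3
    have h4 := Nat.eq_of_beq_eq_true h4
    have h5 := Nat.eq_of_beq_eq_true h5
    have h6 := eqL_eq _ _ h6
    obtain ⟨p', hp', hacc'⟩ := ih t' ht' (a / 4) (b / 4) (c / 4) (by rw [h4]; exact hacc)
      ⟨e', by rw [h6]; exact hmem, hh'⟩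
    rw [h5] at hp'
    obtain ⟨p, hp, hm⟩ := nx_mem hp'
    exact ⟨p, hp, p', hm, hacc'⟩

/-- the condition belonging to `n` -/
def Rep (n a b c : ℕ) : Prop :=
  ∃ x y z w : ℕ, n ^ 2 = x ^ 2 + y ^ 2 + z ^ 2 + w ^ 2 ∧ IsP4 (a * x + b * y + c * z)

/-- the bits of this number are the squares up to `29 ^ 2` -/
def sqm : ℕ := (List.range 30).foldr (fun w s => 2 ^ (w * w) + s) 0

def memL : List ℕ → ℕ → Bool
  | [], _ => false
  | a :: l, b => Nat.beq a b || memL l b

theorem memL_mem : ∀ (l : List ℕ) (b : ℕ), memL l b = true → b ∈ l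
  | [], _, h => by simp [memL] at h
  | a :: l, b, h => by
      simp only [memL, Bool.or_eq_true] at h
      rcases h with h | h
      · rw [Nat.eq_of_beq_eq_true h]; exact List.mem_cons_self
      · exact List.mem_cons_of_mem _ (memL_mem l b h)

theorem sq_chk : (List.range 30).all (fun w => Nat.testBit sqm (w * w)) = true := by
  decide +kernel

def okR (n S : ℕ) : Bool :=
  (List.range (n + 1)).all fun x => (List.range (n + 1)).all fun y => (List.range (n + 1)).all fun z =>
    !(Nat.ble (x * x + y * y + z * z) (n * n) && Nat.testBit sqm (n * n - (x * x + y * y + z * z))) ||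
      (Nat.beq (x + y + z) 0 || memL (dec 500 S) (262144 + ((x * 64 + y) * 64 + z)))

theorem okR_sound {n S : ℕ} (hn : n ≤ 29) (h : okR n S = true) {a b c : ℕ} (hr : Rep n a b c) :
    ∃ e ∈ dec 500 S, Holds e a b c := by
  obtain ⟨x, y, z, w, he, hp⟩ := hr
  have hx : x ≤ n := by nlinarith [sq_nonneg y, sq_nonneg z, sq_nonneg w]
  have hy : y ≤ n := by nlinarith [sq_nonneg x, sq_nonneg z, sq_nonneg w]
  have hz : z ≤ n := by nlinarith [sq_nonneg y, sq_nonneg x, sq_nonneg w]
  have hw : w ≤ n := by nlinarith [sq_nonneg y, sq_nonneg z, sq_nonneg x]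
  have h1 := List.all_eq_true.1 h x (List.mem_range.2 (by omega))
  have h2 := List.all_eq_true.1 h1 y (List.mem_range.2 (by omega))
  have h3 := List.all_eq_true.1 h2 z (List.mem_range.2 (by omega))
  have e0 : n * n = x * x + y * y + z * z + w * w := by
    have := he
    simp only [pow_two] at this
    exact this
  have e1 : n * n - (x * x + y * y + z * z) = w * w := by
    rw [e0]
    exact Nat.add_sub_cancel_left _ _
  have e2 : Nat.ble (x * x + y * y + z * z) (n * n) = true := by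
    apply Nat.ble_eq_true_of_le
    rw [e0]
    exact Nat.le_add_right _ _
  have e3 : Nat.testBit sqm (w * w) = true := List.all_eq_true.1 sq_chk w (List.mem_range.2 (by omega))
  rw [e1, e2, e3] at h3
  simp only [Bool.and_self, Bool.not_true, Bool.false_or, Bool.or_eq_true] at h3
  rcases h3 with h3 | h3
  · exfalso
    have h4 := Nat.eq_of_beq_eq_true h3
    have hx0 : x = 0 := by omega
    have hy0 : y = 0 := by omega
    have hz0 : z = 0 := by omega
    subst hx0 hy0 hz0
    obtain ⟨k, hk⟩ := hp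
    have := Nat.one_le_pow k 4 (by norm_num)
    omega
  · refine ⟨_, memL_mem _ _ h3, ?_⟩
    have c1 : cX (262144 + ((x * 64 + y) * 64 + z)) = x := by unfold cX; omega
    have c2 : cY (262144 + ((x * 64 + y) * 64 + z)) = y := by unfold cY; omega
    have c3 : cZ (262144 + ((x * 64 + y) * 64 + z)) = z := by unfold cZ; omega
    have c4 : cC (262144 + ((x * 64 + y) * 64 + z)) = 1 := by unfold cC; omega
    unfold Holds
    rw [if_neg (by rw [c4]; norm_num), c1, c2, c3, c4]
    have e4 : x * a + y * b + z * c + (1 - 1) = a * x + b * y + c * z := by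
      simp only [Nat.sub_self, add_zero]
      ring
    rw [e4]
    exact hp

/-- one stage -/
theorem stage {T T' : ℕ → List (ℕ × ℕ)} {A A' : ℕ → Bool} {L : List (ℕ × ℕ × ℕ)} {S n : ℕ}
    (h : chk T T' A A' L = true) (hS : (0, S, 1) ∈ L) (hn : n ≤ 29) (hR : okR n S = true)
    {k a b c : ℕ} (hr : Rep n a b c) (hA : Acc T A k 0 a b c) : Acc T' A' k 0 a b c := by
  obtain ⟨p, hp, h1⟩ := chk_sound h k _ hS a b c hA (okR_sound hn hR hr)
  simp only at hp
  have : p = 0 := by omega
  rw [this] at h1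
  exact h1

end Pool.Agent.Q56.P4
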