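import Pool.Agent.Q56.P4.St18

/-! Conclusion: the triple is a multiple of `(1, 2, 3)`. -/

set_option autoImplicit false

namespace Pool.Agent.Q56.P4

theorem fin1 : ∀ (k a b c : ℕ), Acc T18 A18 k 1 a b c → a = 0 ∧ b = 0 ∧ c = 0 := by
  intro k
  induction k with
  | zero =>
    rintro a b c ⟨h1, h2, h3, _⟩
    exact ⟨h1, h2, h3⟩
  | succ k ih =>
    rintro a b c ⟨q', hq, h⟩
    have hq' : dig a b c = 0 ∧ q' = 1 := by
      have e : T18 1 = [(0, 1)] := rfl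
      rw [e] at hq
      simpa using hq
    obtain ⟨h1, rfl⟩ := hq'
    have := ih _ _ _ h
    unfold dig at h1
    omega

theorem fin0 : ∀ (k a b c : ℕ), Acc T18 A18 k 0 a b c →
    ∃ j, a = 4 ^ j ∧ ((b = 2 * 4 ^ j ∧ c = 3 * 4 ^ j) ∨ (b = 3 * 4 ^ j ∧ c = 2 * 4 ^ j)) := by
  intro k
  induction k with
  | zero =>
    rintro a b c ⟨_, _, _, h⟩
    exact absurd h (by decide)
  | succ k ih =>
    rintro a b c ⟨q', hq, h⟩
    have hq' : (dig a b c = 0 ∧ q' = 0) ∨ (dig a b c = 27 ∧ q' = 1) ∨ (dig a b c = 30 ∧ q' = 1) := by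
      have e : T18 0 = [(0, 0), (27, 1), (30, 1)] := rfl
      rw [e] at hq
      simpa using hq
    unfold dig at hq'
    rcases hq' with ⟨h1, rfl⟩ | ⟨h1, rfl⟩ | ⟨h1, rfl⟩
    · obtain ⟨j, h2, h3⟩ := ih _ _ _ h
      refine ⟨j + 1, ?_, ?_⟩
      · rw [pow_succ]; omega
      · rw [pow_succ]; omega
    · have := fin1 _ _ _ _ h
      refine ⟨0, ?_, Or.inl ⟨?_, ?_⟩⟩ <;> omega
    · have := fin1 _ _ _ _ h
      refine ⟨0, ?_, Or.inr ⟨?_, ?_⟩⟩ <;> omega

theorem core {a b c : ℕ} (ha : IsP4 a) (hb : 0 < b) (hc : 0 < c)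
    (h : ∀ n, 1 ≤ n → n ≤ 29 → Rep n a b c) :
    ∃ j, a = 4 ^ j ∧ ((b = 2 * 4 ^ j ∧ c = 3 * 4 ^ j) ∨ (b = 3 * 4 ^ j ∧ c = 2 * 4 ^ j)) := by
  obtain ⟨k, hk⟩ : ∃ k, a + b + c < 4 ^ k := ⟨a + b + c, Nat.lt_pow_self (by norm_num)⟩
  have h1 : Acc T1 A1 k 0 a b c := start k 0 a b c (by norm_num) (by omega) (by omega) (by omega)
    (Or.inl ⟨rfl, ha⟩) (Or.inr hb) (Or.inr hc)
  exact fin0 k a b c (stage18 (h 18 (by norm_num) (by norm_num)) (stage9 (h 9 (by norm_num) (by norm_num))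
    (stage22 (h 22 (by norm_num) (by norm_num)) (stage29 (h 29 (by norm_num) (by norm_num))
    (stage23 (h 23 (by norm_num) (by norm_num)) (stage15 (h 15 (by norm_num) (by norm_num))
    (stage26 (h 26 (by norm_num) (by norm_num)) (stage7 (h 7 (by norm_num) (by norm_num))
    (stage11 (h 11 (by norm_num) (by norm_num)) (stage6 (h 6 (by norm_num) (by norm_num))
    (stage3 (h 3 (by norm_num) (by norm_num)) (stage2 (h 2 (by norm_num) (by norm_num)) h1))))))))))))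

theorem rep_swap12 {n a b c : ℕ} (h : Rep n a b c) : Rep n b a c := by
  obtain ⟨x, y, z, w, h1, h2⟩ := h
  refine ⟨y, x, z, w, by rw [h1]; ring, ?_⟩
  rwa [show b * y + a * x + c * z = a * x + b * y + c * z by ring]

theorem rep_swap13 {n a b c : ℕ} (h : Rep n a b c) : Rep n c b a := by
  obtain ⟨x, y, z, w, h1, h2⟩ := h
  refine ⟨z, y, x, w, by rw [h1]; ring, ?_⟩
  rwa [show c * z + b * y + a * x = a * x + b * y + c * z by ring]

theorem one {a b c : ℕ} (h : Rep 1 a b c) : IsP4 a ∨ IsP4 b ∨ IsP4 c := by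
  obtain ⟨x, y, z, w, h1, h2⟩ := h
  have hx : x ≤ 1 := by nlinarith [sq_nonneg y, sq_nonneg z, sq_nonneg w]
  have hy : y ≤ 1 := by nlinarith [sq_nonneg x, sq_nonneg z, sq_nonneg w]
  have hz : z ≤ 1 := by nlinarith [sq_nonneg y, sq_nonneg x, sq_nonneg w]
  have h0 : ¬ IsP4 0 := by
    rintro ⟨k, hk⟩
    have := Nat.one_le_pow k 4 (by norm_num)
    omega
  interval_cases x <;> interval_cases y <;> interval_cases z <;> simp at h1 h2 <;>
    first
      | exact absurd h2 h0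
      | exact Or.inl h2
      | exact Or.inr (Or.inl h2)
      | exact Or.inr (Or.inr h2)
      | (exfalso; nlinarith [sq_nonneg w])

theorem main {a b c : ℕ} (ha : 0 < a) (hb : 0 < b) (hc : 0 < c)
    (hg : Squarefree (Nat.gcd a (Nat.gcd b c))) (h : ∀ n, 1 ≤ n → n ≤ 29 → Rep n a b c) :
    ({a, b, c} : Multiset ℕ) = {1, 2, 3} := by
  have key : ∀ j : ℕ, 4 ^ j ∣ a → 4 ^ j ∣ b → 4 ^ j ∣ c → j = 0 := by
    intro j h1 h2 h3
    rcases Nat.eq_zero_or_pos j with h0 | h0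
    · exact h0
    · exfalso
      have h4 : 2 * 2 ∣ Nat.gcd a (Nat.gcd b c) := by
        have h5 : 4 ∣ 4 ^ j := dvd_pow_self 4 (by omega)
        exact Nat.dvd_gcd (h5.trans h1) (Nat.dvd_gcd (h5.trans h2) (h5.trans h3))
      have := hg 2 h4
      rw [Nat.isUnit_iff] at this
      omega
  rcases one (h 1 (by norm_num) (by norm_num)) with h1 | h1 | h1
  · obtain ⟨j, e1, h2⟩ := core h1 hb hc h
    have hj : j = 0 := by
      apply key j (by rw [e1])
      · rcases h2 with h2 | h2 <;> rw [h2.1] <;> exact Dvd.intro_left _ rfl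
      · rcases h2 with h2 | h2 <;> rw [h2.2] <;> exact Dvd.intro_left _ rfl
    subst hj
    rcases h2 with ⟨e2, e3⟩ | ⟨e2, e3⟩ <;> subst e1 e2 e3 <;> decide
  · obtain ⟨j, e1, h2⟩ := core h1 ha hc (fun n h3 h4 => rep_swap12 (h n h3 h4))
    have hj : j = 0 := by
      refine key j ?_ (by rw [e1]) ?_
      · rcases h2 with h2 | h2 <;> rw [h2.1] <;> exact Dvd.intro_left _ rfl
      · rcases h2 with h2 | h2 <;> rw [h2.2] <;> exact Dvd.intro_left _ rfl
    subst hj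
    rcases h2 with ⟨e2, e3⟩ | ⟨e2, e3⟩ <;> subst e1 e2 e3 <;> decide
  · obtain ⟨j, e1, h2⟩ := core h1 hb ha (fun n h3 h4 => rep_swap13 (h n h3 h4))
    have hj : j = 0 := by
      refine key j ?_ ?_ (by rw [e1])
      · rcases h2 with h2 | h2 <;> rw [h2.2] <;> exact Dvd.intro_left _ rfl
      · rcases h2 with h2 | h2 <;> rw [h2.1] <;> exact Dvd.intro_left _ rfl
    subst hj
    rcases h2 with ⟨e2, e3⟩ | ⟨e2, e3⟩ <;> subst e1 e2 e3 <;> decide

end Pool.Agent.Q56.P4
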