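import Pool.Agent.Q56.P4.Start

/-! Stage 2. -/

set_option autoImplicit false

namespace Pool.Agent.Q56.P4

def T2l : List (List (ℕ × ℕ)) := [
  [(0, 0), (1, 1), (2, 2), (3, 1), (4, 3), (6, 4), (7, 5), (8, 6), (9, 7), (10, 8), (11, 7), (12, 3), (13, 5), (14, 4), (16, 9), (17, 10), (18, 11), (19, 12), (20, 13), (22, 14), (24, 15), (25, 16), (26, 17), (27, 18), (28, 19), (30, 20)],
  [(0, 1), (1, 1), (2, 1), (3, 1), (8, 7), (9, 7), (10, 7), (11, 7), (16, 10), (17, 10), (18, 10), (19, 10), (24, 18), (25, 18), (26, 18), (27, 18)],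
  [(0, 2), (1, 1), (2, 1), (3, 1), (4, 4), (8, 21), (9, 7), (10, 7), (11, 7), (12, 4), (16, 11), (17, 10), (18, 10), (19, 10), (20, 20), (24, 17), (25, 18), (26, 18), (27, 18), (28, 20)],
  [(0, 3), (2, 4), (4, 3), (6, 4), (8, 3), (10, 4), (12, 3), (14, 4), (16, 13), (18, 20), (20, 13), (22, 20), (24, 13), (26, 20), (28, 13), (30, 20)],
  [(0, 4), (4, 4), (8, 4), (12, 4), (16, 20), (20, 20), (24, 20), (28, 20)],
  [(3, 5), (6, 5), (9, 5), (12, 5), (18, 22), (21, 22), (24, 22), (31, 23)],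
  [(0, 6), (1, 7), (2, 21), (3, 7), (4, 3), (6, 4), (8, 3), (10, 4), (12, 3), (14, 4), (16, 15), (17, 18), (18, 17), (19, 18), (20, 13), (22, 20), (24, 13), (26, 20), (28, 13), (30, 20)],
  [(0, 7), (1, 7), (2, 7), (3, 7), (16, 18), (17, 18), (18, 18), (19, 18)],
  [(0, 21), (1, 7), (2, 7), (3, 24), (4, 4), (6, 5), (8, 4), (9, 5), (12, 25), (16, 17), (17, 18), (18, 16), (19, 18), (20, 20), (21, 22), (24, 14), (28, 20), (31, 23)],
  [(0, 9), (1, 10), (2, 11), (3, 10), (4, 13), (6, 20), (8, 15), (9, 18), (10, 17), (11, 18), (12, 13), (14, 20)],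
  [(0, 10), (1, 10), (2, 10), (3, 10), (8, 18), (9, 18), (10, 18), (11, 18)],
  [(0, 11), (1, 10), (2, 10), (3, 10), (4, 20), (8, 17), (9, 18), (10, 18), (11, 18), (12, 20)],
  [(0, 10), (1, 10), (2, 10), (3, 12), (6, 22), (8, 18), (9, 16), (10, 18), (11, 18), (12, 22)],
  [(0, 13), (2, 20), (4, 13), (6, 20), (8, 13), (10, 20), (12, 13), (14, 20)],
  [(0, 20), (3, 22), (4, 20), (6, 22), (8, 20), (9, 22), (12, 14)],
  [(0, 15), (1, 18), (2, 17), (3, 18), (4, 13), (6, 20), (8, 13), (10, 20), (12, 13), (14, 20)],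
  [(0, 18), (1, 18), (2, 18), (3, 16), (6, 22), (9, 22), (12, 22)],
  [(0, 17), (1, 18), (2, 18), (3, 18), (4, 20), (8, 20), (12, 20)],
  [(0, 18), (1, 18), (2, 18), (3, 18)],
  [(0, 13), (2, 20), (3, 22), (4, 13), (6, 14), (8, 13), (9, 22), (10, 20), (12, 19), (14, 20)],
  [(0, 20), (4, 20), (8, 20), (12, 20)],
  [(0, 21), (1, 7), (2, 7), (3, 7), (4, 4), (8, 4), (12, 4), (16, 17), (17, 18), (18, 18), (19, 18), (20, 20), (24, 20), (28, 20)],
  [(0, 26), (3, 22), (6, 22), (9, 22), (12, 22)],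
  [(2, 22), (5, 22), (8, 22), (15, 23)],
  [(0, 7), (1, 7), (2, 7), (3, 24), (6, 5), (9, 5), (12, 5), (16, 18), (17, 18), (18, 16), (19, 18), (21, 22), (24, 22), (31, 23)],
  [(0, 4), (3, 5), (4, 4), (6, 5), (8, 4), (9, 5), (12, 25), (16, 20), (18, 22), (20, 20), (21, 22), (24, 14), (28, 20), (31, 23)],
  [(0, 26)]]

def T2 (q : ℕ) : List (ℕ × ℕ) := T2l.getD q []

def A2 (q : ℕ) : Bool := Nat.testBit 72826880 q

def S2 : ℕ := 0x42000004104100400800040002

def L2 : List (ℕ × ℕ × ℕ) := [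
  (0, S2, 1),
  (4, 0x4200000010410040080, 2),
  (4, 0x4200000400800080002, 3),
  (4, 0x420000040080, 2),
  (2, 0x4200000010410040002, 4),
  (6, 0x42000, 0),
  (6, 0x420000080002, 5),
  (6, 0x420000081041, 6),
  (2, 0x4200000800800040002, 7),
  (6, 0x420000080080, 8),
  (6, 0x42000008104100800800080002, 9),
  (2, 0x420000040002, 4),
  (1, 0x104100400800040002, 10),
  (5, 0x40080, 11),
  (5, 0x400800080002, 12),
  (5, 0x810410040080, 13),
  (3, 0x40002, 14),
  (7, 0x810410080002, 15),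
  (3, 0x800800040002, 16),
  (7, 0x810410080080, 17),
  (7, 0x800800080002, 18),
  (7, 0x80080, 19),
  (3, 0x810410040002, 20),
  (7, 0x80002, 21),
  (4, 0x4200000400800000002, 3),
  (6, 0x420000000002, 5),
  (6, 0x4200000800800000002, 22),
  (5, 0x400800000002, 12),
  (7, 0x2, 21),
  (7, 0x800800000002, 18),
  (6, 0x420000001041, 0),
  (7, 0x81041, 23),
  (7, 0xc1041, 24),
  (2, 0x4200000000800040002, 7),
  (6, 0x420000000080, 8),
  (6, 0x4200000000800080002, 22),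
  (3, 0x800040002, 16),
  (7, 0x80, 19),
  (7, 0x800080002, 18),
  (6, 0x42000000104100000800000002, 22),
  (6, 0x4200000810410000080, 25),
  (6, 0x4200000810410000002, 26),
  (7, 0x800000002, 18),
  (7, 0x810410000080, 17),
  (7, 0x810410000002, 15),
  (5, 0x10410040080, 11),
  (7, 0x10410000002, 21),
  (7, 0x10410000080, 19),
  (3, 0x10410040002, 14),
  (6, 0x4200000000800000002, 22),
  (7, 0x1041, 27),
  (6, 0x4200000010410000080, 8),
  (6, 0x4200000010410000002, 5)]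

theorem chk2 : chk T1 T2 A1 A2 L2 = true := by
  decide +kernel

theorem ok2 : okR 2 S2 = true := by
  decide +kernel

theorem stage2 {k a b c : ℕ} (hr : Rep 2 a b c) (hA : Acc T1 A1 k 0 a b c) :
    Acc T2 A2 k 0 a b c :=
  stage chk2 List.mem_cons_self (by norm_num) ok2 hr hA

end Pool.Agent.Q56.P4
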