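import Pool.Agent.Q56.P4.St22

/-! Stage 9. -/

set_option autoImplicit false

namespace Pool.Agent.Q56.P4

def T9l : List (List (ℕ × ℕ)) := [
  [(0, 0), (26, 1), (27, 1), (30, 1)],
  [(0, 1)]]

def T9 (q : ℕ) : List (ℕ × ℕ) := T9l.getD q []

def A9 (q : ℕ) : Bool := Nat.testBit 2 q

def S9 : ℕ := 0x490000048101004810000480c200480830048082004804400480400048004004800100471040047100004700400461830046180004614400461420046105004610200460c600460c000460850046084004600600460030045184004518200451060045102004508600450840044201004420000441c400441c0004418500441820044146004414200441070044100004408600440850044048004404000440080044007004400400440010043202004318600431800043088004308200430060042203004220200421850042184004214600421440042106004210500420c800420c20042088004208300412040041200004110800411000041008004100400402400040204004020100401c400401860040183004010800401070040104004010100400c6004004800400440040009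

def L9 : List (ℕ × ℕ × ℕ) := [
  (0, S9, 1),
  (1, 0x49000004810000880c2008808200c8044004804000c800400c7104004710000c7004004618000c61440086142008610201060c600460c000c6084010600600c5184008518201051060085102010508600c5084004420000c41c400441c00084182010414600841420044100010408601440480044040014400800c4004008320201031860043180014308800830820103006008220200c2184010214600c2144010210601420c800820c2014208800c1204004120001411080041100014100800c1004004024000c020400c01c40100186014010800c010401000c6014004800c0044, 0),
  (2, 0x4900000c810100c8100008808300880820048004004800100c710400c710000470040106183010618000c610500c610200860850086084004600600460030105184010518200c510600c510200850860085084014420101442000104185010418200c410700c4100008408600840850044008004400700440040044001014320201031860103180008308800830820043006014220301422020102185010218400c210600c2105008208800820830141204014120000c110800c110000410080041004014020401402010100186010018300c010800c010700c010400c01010040009, 0),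
  (3, 0x1481000148082014800401c618301c6144018614201c610501c60c601060c00186085010600301842000184182010410001840860184008010400401c220301c218501c21460182144018210501c20c801020c2010208301c020401c018601c01080140104, 2),
  (3, 0x14810001880c201880040206144018610201060c001c600601842000244146018414201041000204008014400401c220201c2144020210602420c802002040240108018010401c00c6, 2),
  (3, 0x1881000188083014800401c61800206105018608401060030204200024418501441000184085018400801040040242203020218401c210501c2088024020401c018302001080180104, 2),
  (3, 0x10810001080c20106180010614201060c6010518201051060104200010414600c410000c40080103202010318600c208800c0108, 0),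
  (3, 0x10808301080040106183010608501060060105184010508600c42000104185010400800c40040103186010308800c220200c0204, 0),
  (3, 0x88100008808200880040080104, 2),
  (3, 0x8810000c4146008400400c20c800c0108, 2),
  (3, 0x8800400c4185008410000c220300c0204, 2),
  (3, 0x8100000808200080040000104, 2),
  (3, 0x81000004004, 2),
  (3, 0x80040004100, 2)]

theorem chk9 : chk T22 T9 A22 A9 L9 = true := by
  decide +kernel

theorem ok9 : okR 9 S9 = true := by
  decide +kernel

theorem stage9 {k a b c : ℕ} (hr : Rep 9 a b c) (hA : Acc T22 A22 k 0 a b c) :
    Acc T9 A9 k 0 a b c :=
  stage chk9 List.mem_cons_self (by norm_num) ok9 hr hA

end Pool.Agent.Q56.P4
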