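import Pool.Agent.Q56.P4.Core

/-! The automaton of the words with `a` a power of four and `b`, `c` positive. -/

set_option autoImplicit false

namespace Pool.Agent.Q56.P4

def upd (q d : ℕ) : ℕ :=
  (bif Nat.beq (q % 2) 0 && Nat.beq (d / 16) 0 then 0 else 1) +
    2 * (bif Nat.beq (q / 2 % 2) 0 && Nat.beq (d / 4 % 4) 0 then 0 else 1) +
    4 * (bif Nat.beq (q / 4 % 2) 0 && Nat.beq (d % 4) 0 then 0 else 1)

def T1 (q : ℕ) : List (ℕ × ℕ) :=
  ((List.range 64).filter (fun d => bif Nat.beq (q % 2) 0 then Nat.ble (d / 16) 1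
    else Nat.beq (d / 16) 0)).map (fun d => (d, upd q d))

def A1 (q : ℕ) : Bool := Nat.beq q 7


theorem start : ∀ (k q a b c : ℕ), q < 8 → a < 4 ^ k → b < 4 ^ k → c < 4 ^ k →
    ((q % 2 = 0 ∧ IsP4 a) ∨ (q % 2 = 1 ∧ a = 0)) → (q / 2 % 2 = 1 ∨ 0 < b) →
    (q / 4 % 2 = 1 ∨ 0 < c) → Acc T1 A1 k q a b c := by
  intro k
  induction k with
  | zero =>
    intro q a b c hq ha hb hc h1 h2 h3
    simp only [pow_zero, Nat.lt_one_iff] at ha hb hc
    subst ha hb hc
    refine ⟨rfl, rfl, rfl, ?_⟩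
    have h1' : q % 2 = 1 := by
      rcases h1 with ⟨_, j, hj⟩ | h1
      · have := Nat.one_le_pow j 4 (by norm_num)
        omega
      · exact h1.1
    have : q = 7 := by omega
    rw [this]
    rfl
  | succ k ih =>
    intro q a b c hq ha hb hc h1 h2 h3
    have d1 : dig a b c / 16 = a % 4 := by unfold dig; omega
    have d2 : dig a b c / 4 % 4 = b % 4 := by unfold dig; omega
    have d3 : dig a b c % 4 = c % 4 := by unfold dig; omega
    have hd : dig a b c < 64 := by unfold dig; omega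
    rw [pow_succ] at ha hb hc
    obtain ⟨u1, hu1⟩ : ∃ u, u = (bif Nat.beq (q % 2) 0 && Nat.beq (dig a b c / 16) 0 then 0 else 1) := ⟨_, rfl⟩
    obtain ⟨u2, hu2⟩ : ∃ u, u = (bif Nat.beq (q / 2 % 2) 0 && Nat.beq (dig a b c / 4 % 4) 0 then 0 else 1) := ⟨_, rfl⟩
    obtain ⟨u3, hu3⟩ : ∃ u, u = (bif Nat.beq (q / 4 % 2) 0 && Nat.beq (dig a b c % 4) 0 then 0 else 1) := ⟨_, rfl⟩
    have hu : upd q (dig a b c) = u1 + 2 * u2 + 4 * u3 := by
      unfold upd
      rw [hu1, hu2, hu3]
    have key : ∀ x y : ℕ, ((x = 0 ∧ y = 0 ∧ (bif Nat.beq x 0 && Nat.beq y 0 then 0 else 1) = 0) ∨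
        ((x ≠ 0 ∨ y ≠ 0) ∧ (bif Nat.beq x 0 && Nat.beq y 0 then 0 else 1) = 1)) := by
      intro x y
      rcases x with _ | x
      · rcases y with _ | y
        · left; exact ⟨rfl, rfl, rfl⟩
        · right; exact ⟨Or.inr (by omega), rfl⟩
      · right; exact ⟨Or.inl (by omega), rfl⟩
    have k1 := key (q % 2) (dig a b c / 16)
    have k2 := key (q / 2 % 2) (dig a b c / 4 % 4)
    have k3 := key (q / 4 % 2) (dig a b c % 4)
    rw [← hu1, d1] at k1
    rw [← hu2, d2] at k2
    rw [← hu3, d3] at k3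
    have v2 : u2 = 0 ∨ u2 = 1 := by rcases k2 with h | h <;> omega
    have v3 : u3 = 0 ∨ u3 = 1 := by rcases k3 with h | h <;> omega
    have v1 : u1 = 0 ∨ u1 = 1 := by rcases k1 with h | h <;> omega
    have hstep : (q % 2 = 0 ∧ a % 4 ≤ 1 ∨ q % 2 = 1 ∧ a % 4 = 0) ∧
        (((u1 = 0) ∧ IsP4 (a / 4)) ∨ (u1 = 1 ∧ a / 4 = 0)) := by
      rcases h1 with ⟨g1, j, g2⟩ | ⟨g1, g2⟩
      · rcases j with _ | j
        · simp only [pow_zero] at g2
          subst g2
          refine ⟨Or.inl ⟨g1, by norm_num⟩, Or.inr ⟨?_, by norm_num⟩⟩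
          rcases k1 with h | h
          · omega
          · exact h.2
        · rw [pow_succ] at g2
          refine ⟨Or.inl ⟨g1, by omega⟩, Or.inl ⟨?_, j, by omega⟩⟩
          rcases k1 with h | h
          · exact h.2.2
          · omega
      · subst g2
        refine ⟨Or.inr ⟨g1, by norm_num⟩, Or.inr ⟨?_, by norm_num⟩⟩
        rcases k1 with h | h
        · omega
        · exact h.2
    refine ⟨upd q (dig a b c), ?_, ?_⟩
    · unfold T1
      rw [List.mem_map]
      refine ⟨dig a b c, ?_, rfl⟩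
      rw [List.mem_filter]
      refine ⟨List.mem_range.2 hd, ?_⟩
      rw [d1]
      rcases hstep.1 with ⟨g1, g2⟩ | ⟨g1, g2⟩
      · rw [g1]
        exact Nat.ble_eq_true_of_le g2
      · rw [g1, g2]
        rfl
    · rw [hu]
      apply ih
      · omega
      · omega
      · omega
      · omega
      · rcases hstep.2 with ⟨g1, g2⟩ | ⟨g1, g2⟩
        · exact Or.inl ⟨by omega, g2⟩
        · exact Or.inr ⟨by omega, g2⟩
      · rcases k2 with h | h
        · right
          rcases h2 with h2 | h2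
          · omega
          · omega
        · left
          omega
      · rcases k3 with h | h
        · right
          rcases h3 with h3 | h3
          · omega
          · omega
        · left
          omega

end Pool.Agent.Q56.P4
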